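import Pool.Agent.Helper74.CO.Goals

/-!
Packet 12519 (CO-KILL, owner helper74).
-/

namespace Pool.Agent.Helper46.CO

open Finset Pool.Agent.Helper74.CO

theorem dots_sid {n : ℕ} (f : Equiv.Perm (Fin n)) (s t : ℤ) (hf : IsCostas f)
    (a b c d : ℤ × ℤ) (ha : a ∈ dots f s t) (hb : b ∈ dots f s t) (hc : c ∈ dots f s t)
    (hd : d ∈ dots f s t) (h : a - b = c - d) : a = b ∨ a = c := by
  unfold dots at ha hb hc hd
  obtain ⟨i, -, rfl⟩ := Finset.mem_image.1 ha
  obtain ⟨j, -, rfl⟩ := Finset.mem_image.1 hb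
  obtain ⟨k, -, rfl⟩ := Finset.mem_image.1 hc
  obtain ⟨l, -, rfl⟩ := Finset.mem_image.1 hd
  rw [Prod.ext_iff] at h
  obtain ⟨h1, h2⟩ := h
  simp only [Prod.fst_sub, Prod.snd_sub] at h1 h2
  rcases lt_trichotomy j i with hij | hij | hij
  · have hlk : l < k := by
      rw [Fin.lt_def] at hij ⊢
      omega
    have := hf i j k l hij hlk (by linarith) (by linarith)
    right
    rw [this.1]
  · left
    rw [hij]
  · have hlk : k < l := by
      rw [Fin.lt_def] at hij ⊢
      omega
    have := hf j i l k hij hlk (by linarith) (by linarith)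
    right
    rw [this.2]

theorem t_KILL : Pool.Agent.Helper74.CO.KILL := by
  classical
  intro A n f s t P hf hA hPB hPA
  set B := dots f s t with hB
  let S := sols A P
  let S1 := S.filter (fun w => w.1 ∉ B)
  let S2 := S.filter (fun w => w.2 ∉ B)
  let S3 := S.filter (fun w => w.1 + w.2 - P ∉ B)
  have hS : ∀ w ∈ S, w.1 ∈ A ∧ w.2 ∈ A ∧ w.1 + w.2 - P ∈ A := by
    intro w hw
    have := Finset.mem_filter.1 hw
    exact ⟨(Finset.mem_product.1 this.1).1, (Finset.mem_product.1 this.1).2, this.2⟩
  have hcov : S ⊆ (S1 ∪ S2) ∪ S3 := by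
    intro w hw
    obtain ⟨a1, a2, a3⟩ := hS w hw
    by_contra hn
    rw [Finset.mem_union, Finset.mem_union, not_or, not_or] at hn
    obtain ⟨⟨n1, n2⟩, n3⟩ := hn
    have b1 : w.1 ∈ B := by
      by_contra h
      exact n1 (Finset.mem_filter.2 ⟨hw, h⟩)
    have b2 : w.2 ∈ B := by
      by_contra h
      exact n2 (Finset.mem_filter.2 ⟨hw, h⟩)
    have b3 : w.1 + w.2 - P ∈ B := by
      by_contra h
      exact n3 (Finset.mem_filter.2 ⟨hw, h⟩)
    rcases dots_sid f s t hf w.1 P (w.1 + w.2 - P) w.2 b1 hPB b3 b2 (by abel) with h | h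
    · exact hPA (h ▸ a1)
    · have : w.2 = P := by
        have h' : w.1 + (w.2 - P) = w.1 + 0 := by rw [add_zero, ← add_sub_assoc]; exact h.symm
        exact sub_eq_zero.1 (add_left_cancel h')
      exact hPA (this ▸ a2)
  have c1 : #S1 ≤ #(A \ B) := by
    refine Finset.card_le_card_of_injOn (fun w => w.1) ?_ ?_
    · intro w hw
      have hw' := Finset.mem_filter.1 (Finset.mem_coe.1 hw)
      exact Finset.mem_coe.2 (Finset.mem_sdiff.2 ⟨(hS w hw'.1).1, hw'.2⟩)
    · intro w hw w' hw' h
      have hw1 := (Finset.mem_filter.1 (Finset.mem_coe.1 hw)).1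
      have hw1' := (Finset.mem_filter.1 (Finset.mem_coe.1 hw')).1
      obtain ⟨a1, a2, a3⟩ := hS w hw1
      obtain ⟨a1', a2', a3'⟩ := hS w' hw1'
      have h0 : w.1 = w'.1 := h
      rcases hA _ a3 _ a2 _ a3' _ a2' (by rw [h0]; abel) with h2 | h2
      · exfalso
        have : w.1 = P := by
          have h' : (w.1 - P) + w.2 = 0 + w.2 := by
            have h'' : w.1 - P + w.2 = w.1 + w.2 - P := by abel
            rw [zero_add, h'', h2]
          exact sub_eq_zero.1 (add_right_cancel h')
        exact hPA (this ▸ a1)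
      · refine Prod.ext h0 ?_
        rw [h0] at h2
        have h3 : w'.1 + (w.2 - P) = w'.1 + (w'.2 - P) := by
          rw [← add_sub_assoc, ← add_sub_assoc]; exact h2
        exact sub_left_injective (add_left_cancel h3)
  have c2 : #S2 ≤ #(A \ B) := by
    refine Finset.card_le_card_of_injOn (fun w => w.2) ?_ ?_
    · intro w hw
      have hw' := Finset.mem_filter.1 (Finset.mem_coe.1 hw)
      exact Finset.mem_coe.2 (Finset.mem_sdiff.2 ⟨(hS w hw'.1).2.1, hw'.2⟩)
    · intro w hw w' hw' h
      have hw1 := (Finset.mem_filter.1 (Finset.mem_coe.1 hw)).1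
      have hw1' := (Finset.mem_filter.1 (Finset.mem_coe.1 hw')).1
      obtain ⟨a1, a2, a3⟩ := hS w hw1
      obtain ⟨a1', a2', a3'⟩ := hS w' hw1'
      have h0 : w.2 = w'.2 := h
      rcases hA _ a3 _ a1 _ a3' _ a1' (by rw [h0]; abel) with h2 | h2
      · exfalso
        have : w.2 = P := by
          have h' : w.1 + (w.2 - P) = w.1 + 0 := by
            rw [add_zero, ← add_sub_assoc]; exact h2
          exact sub_eq_zero.1 (add_left_cancel h')
        exact hPA (this ▸ a2)
      · refine Prod.ext ?_ h0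
        rw [h0] at h2
        have h3 : w.1 + (w'.2 - P) = w'.1 + (w'.2 - P) := by
          rw [← add_sub_assoc, ← add_sub_assoc]; exact h2
        exact add_right_cancel h3
  have c3 : #S3 ≤ 2 * #(A \ B) := by
    refine Finset.card_le_mul_card_image_of_maps_to (f := fun w => w.1 + w.2 - P) ?_ 2 ?_
    · intro w hw
      have hw' := Finset.mem_filter.1 hw
      exact Finset.mem_sdiff.2 ⟨(hS w hw'.1).2.2, hw'.2⟩
    · intro c _
      by_cases he : (S3.filter (fun w => w.1 + w.2 - P = c)).Nonempty
      · obtain ⟨w, hw⟩ := he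
        have hw1 := Finset.mem_filter.1 hw
        obtain ⟨a1, a2, a3⟩ := hS w (Finset.mem_filter.1 hw1.1).1
        have hsub : S3.filter (fun w => w.1 + w.2 - P = c) ⊆ {w, (w.2, w.1)} := by
          intro w' hw'
          have hw1' := Finset.mem_filter.1 hw'
          obtain ⟨a1', a2', a3'⟩ := hS w' (Finset.mem_filter.1 hw1'.1).1
          have e : w.1 + w.2 = w'.1 + w'.2 := sub_left_injective (hw1.2.trans hw1'.2.symm)
          rw [Finset.mem_insert, Finset.mem_singleton]
          have e' : w.1 - w'.1 = w'.2 - w.2 := by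
            rw [sub_eq_sub_iff_add_eq_add, e]; abel
          rcases hA _ a1 _ a1' _ a2' _ a2 e' with h | h
          · left
            refine Prod.ext h.symm ?_
            rw [h] at e
            exact (add_left_cancel e).symm
          · right
            refine Prod.ext ?_ h.symm
            rw [h, add_comm w'.2 w.2] at e
            exact (add_right_cancel e).symm
        exact (Finset.card_le_card hsub).trans Finset.card_le_two
      · rw [Finset.not_nonempty_iff_eq_empty.1 he]
        simp
  calc #(sols A P) ≤ #((S1 ∪ S2) ∪ S3) := Finset.card_le_card hcov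
    _ ≤ (#S1 + #S2) + #S3 :=
        (Finset.card_union_le _ _).trans (Nat.add_le_add_right (Finset.card_union_le _ _) _)
    _ ≤ 4 * #(A \ B) := by omega

end Pool.Agent.Helper46.CO
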