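import Pool.Agent.Helper74.CO.Goals2

/-!
# Project CO (MP_c5396e_co), packet WAD
-/

set_option autoImplicit false

namespace Pool.Agent.Helper46.CO

open Finset Pool.Agent.Helper74.CO

theorem ex_add (a b : ℝ) : ex (a + b) = ex a * ex b := by
  unfold ex
  rw [← Complex.exp_add]
  congr 1
  push_cast
  ring

theorem nrm {F : Type} [Field F] [Fintype F] (χ : MulChar F ℂ) (x : F) : ‖χ x‖ ≤ 1 := by
  classical
  by_cases hx : x = 0
  · rw [hx, MulChar.map_zero]
    simp
  · have h1 : χ x ^ (Fintype.card F - 1) = 1 := by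
      rw [← map_pow, FiniteField.pow_card_sub_one_eq_one x hx, map_one]
    have h2 : Fintype.card F - 1 ≠ 0 := by
      have : 1 < Fintype.card F := Fintype.one_lt_card
      omega
    exact (Complex.norm_eq_one_of_pow_eq_one h1 h2).le

/-- missing terms -/
theorem miss {F : Type} [Fintype F] [DecidableEq F] (X B : Finset F) (g h : F → ℂ)
    (hB : ∀ x, x ∉ X → x ∈ B) (hB5 : #B ≤ 5) (hg : ∀ x, ‖g x‖ ≤ 1) (hh : ∀ x ∈ X, h x = g x) :
    ‖∑ x ∈ X, h x‖ ≤ ‖∑ x, g x‖ + 5 := by
  have h1 : ∑ x ∈ X, h x = ∑ x, g x - ∑ x ∈ Xᶜ, g x := by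
    rw [Finset.sum_congr rfl hh, ← Finset.sum_add_sum_compl X g]
    ring
  have h2 : ‖∑ x ∈ Xᶜ, g x‖ ≤ 5 := by
    refine (norm_sum_le _ _).trans ?_
    have h3 : ∑ x ∈ Xᶜ, ‖g x‖ ≤ ∑ x ∈ Xᶜ, (1 : ℝ) := Finset.sum_le_sum fun x _ => hg x
    refine h3.trans ?_
    rw [Finset.sum_const, nsmul_eq_mul, mul_one]
    have h4 : #Xᶜ ≤ #B := Finset.card_le_card fun x hx => hB x (by simpa using hx)
    exact_mod_cast h4.trans hB5
  rw [h1]
  exact (norm_sub_le _ _).trans (by linarith)

theorem t_WAD (hL : LIM) (hM : ∀ (F : Type) [Field F] [Fintype F] [DecidableEq F], MIX F)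
    (hC : CHM) (hA : CHA) : Pool.Agent.Helper74.CO.WAD := by
  intro K κ hκ
  obtain ⟨q₁, hq₁⟩ := hL κ hκ
  refine ⟨max q₁ (K + 6), ?_⟩
  intro p _ g c e v hp hg hc he hve
  have hcard : Fintype.card (ZMod p) = p := ZMod.card p
  have hq1 : q₁ ≤ p := (le_max_left _ _).trans hp
  have hq2 : K + 6 ≤ p := (le_max_right _ _).trans hp
  obtain ⟨χ, hχ1, hχ2⟩ := hC (ZMod p) g hg (by rw [hcard]; omega)
  obtain ⟨ψ, hψ1, hψ2, hψ3, hψ4⟩ := hA p
  rw [hcard] at hχ1 hχ2
  have hlim := hq₁ p hq1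
  have hpR : (1 : ℝ) ≤ (p : ℝ) := by
    have : 1 ≤ p := by omega
    exact_mod_cast this
  have hsq : 1 ≤ √(p : ℝ) := by
    rw [Real.one_le_sqrt]
    exact hpR
  intro j k hj hk hjk
  set X := Xw e v with hX
  have hXm : ∀ x, x ∈ X ↔ (x ≠ 0 ∧ x ≠ v ∧ x ≠ e) := by
    intro x
    rw [hX, Xw]
    simp
  set B : Finset (ZMod p) := {0, v, e} with hBdef
  have hB3 : #B ≤ 3 := Finset.card_le_three
  have hB : ∀ x, x ∉ X → x ∈ B := by
    intro x hx
    rw [hXm] at hx
    rw [hBdef]
    simp only [Finset.mem_insert, Finset.mem_singleton]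
    by_contra hcon
    push Not at hcon
    exact hx hcon
  have hXc : (p : ℝ) - 5 ≤ #X := by
    have h1 : p ≤ #X + #B := by
      have h2 : (Finset.univ : Finset (ZMod p)) ⊆ X ∪ B := by
        intro x _
        rw [Finset.mem_union]
        by_cases hx : x ∈ X
        · exact Or.inl hx
        · exact Or.inr (hB x hx)
      calc p = #(Finset.univ : Finset (ZMod p)) := by rw [Finset.card_univ, hcard]
        _ ≤ #(X ∪ B) := Finset.card_le_card h2
        _ ≤ #X + #B := Finset.card_union_le _ _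
    have h3 : (p : ℝ) ≤ #X + 5 := by
      have : p ≤ #X + 5 := by omega
      exact_mod_cast this
    linarith
  -- the value of the involution
  have hMw : ∀ x, x ≠ e → Mw e v x = e + e * (e - v) * (x - e)⁻¹ := by
    intro x hx
    have h0 : x - e ≠ 0 := sub_ne_zero.mpr hx
    unfold Mw
    field_simp
    ring
  have hb : e * (e - v) ≠ 0 := mul_ne_zero he (sub_ne_zero.mpr (Ne.symm hve))
  -- the final estimate
  have fin : ∀ G : ZMod p → ℂ, (∀ x, ‖G x‖ ≤ 1) →
      (∀ x ∈ X, (χ ^ j) (x / c) * ψ k (Mw e v x) = G x) →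
      ‖∑ x, G x‖ ^ 2 ≤ 16 * p * √p →
      ‖∑ x ∈ X, ex (j * aw p g c x + k * (fun x => cw p (Mw e v x)) x)‖ ≤ κ * #X := by
    intro G hG hh hs
    have e1 : ∀ x ∈ X, ex (j * aw p g c x + k * (fun x => cw p (Mw e v x)) x) = G x := by
      intro x hx
      rw [← hh x hx]
      obtain ⟨x0, xv, xe⟩ := (hXm x).1 hx
      rw [ex_add, hχ1 _ (div_ne_zero x0 hc) j, hψ1 k (Mw e v x)]
      rfl
    have e2 := miss X B G _ hB (hB3.trans (by norm_num)) hG e1
    refine e2.trans ?_
    refine (hlim _ (norm_nonneg _) hs).trans ?_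
    exact mul_le_mul_of_nonneg_left hXc hκ.le
  have hzero : (0 : ℝ) ^ 2 ≤ 16 * p * √p := by
    have : 0 ≤ (p : ℝ) * √p := by positivity
    nlinarith
  have hψn : ∀ x, ‖ψ k x‖ ≤ 1 := by
    intro x
    rw [hψ1]
    unfold ex
    have : (2 * Real.pi * ((k * cw p x : ℝ) : ℂ) * Complex.I) =
        ((2 * Real.pi * (k * cw p x) : ℝ) : ℂ) * Complex.I := by
      push_cast
      ring
    rw [this, Complex.norm_exp_ofReal_mul_I]
  by_cases hk0 : k = 0
  · have hj0 : j ≠ 0 := fun h => hjk ⟨h, hk0⟩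
    refine fin (fun x => (χ ^ j) (x / c)) (fun x => nrm _ _) ?_ ?_
    · intro x hx
      rw [hk0, hψ3, AddChar.one_apply, mul_one]
    · have h0 : ∑ x : ZMod p, (χ ^ j) (x / c) = 0 := by
        have h1 : ∀ x : ZMod p, (χ ^ j) (x / c) = (χ ^ j) c⁻¹ * (χ ^ j) x := by
          intro x
          rw [div_eq_mul_inv, map_mul, mul_comm]
        rw [Finset.sum_congr rfl fun x _ => h1 x, ← Finset.mul_sum]
        have h2 : ∑ x, (χ ^ j) x = 0 := by
          apply MulChar.sum_eq_zero_of_ne_one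
          apply hχ2 j hj0
          have : (K : ℤ) + 6 ≤ p := by exact_mod_cast hq2
          omega
        rw [h2, mul_zero]
      show ‖∑ x : ZMod p, (χ ^ j) (x / c)‖ ^ 2 ≤ _
      rw [h0, norm_zero]
      exact hzero
  · have hψk : ψ k ≠ 1 := by
      apply hψ4 k hk0
      have : (K : ℤ) + 6 ≤ p := by exact_mod_cast hq2
      omega
    -- the substitution `x = e + 1 / w`
    let E : ZMod p ≃ ZMod p := (Equiv.inv (ZMod p)).trans (Equiv.addLeft e)
    have hE : ∀ w, E w = e + w⁻¹ := fun w => rfl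
    -- the shifted additive character
    let ψ' : AddChar (ZMod p) ℂ := (ψ k).mulShift (e * (e - v))
    have hψ' : ∀ w, ψ' w = ψ k (e * (e - v) * w) := fun w => rfl
    have hψ'1 : ψ' ≠ 1 := by
      intro h
      apply hψk
      ext x
      have h1 := DFunLike.congr_fun h ((e * (e - v))⁻¹ * x)
      rw [hψ', ← mul_assoc, mul_inv_cancel₀ hb, one_mul] at h1
      rw [h1]
      rfl
    by_cases hj0 : j = 0
    · refine fin (fun x => ψ k (e + e * (e - v) * (x - e)⁻¹)) (fun x => hψn _) ?_ ?_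
      · intro x hx
        obtain ⟨x0, xv, xe⟩ := (hXm x).1 hx
        rw [hj0, zpow_zero, MulChar.one_apply (Ne.isUnit (div_ne_zero x0 hc)), one_mul,
          hMw x xe]
      · have h0 : ∑ x : ZMod p, ψ k (e + e * (e - v) * (x - e)⁻¹) = 0 := by
          rw [← E.sum_comp]
          have h1 : ∀ w, ψ k (e + e * (e - v) * (E w - e)⁻¹) = ψ k e * ψ' w := by
            intro w
            rw [hE, add_sub_cancel_left, inv_inv, AddChar.map_add_eq_mul, hψ']
          rw [Finset.sum_congr rfl fun w _ => h1 w, ← Finset.mul_sum,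
            AddChar.sum_eq_zero_of_ne_one hψ'1, mul_zero]
        show ‖∑ x : ZMod p, ψ k (e + e * (e - v) * (x - e)⁻¹)‖ ^ 2 ≤ _
        rw [h0, norm_zero]
        exact hzero
    · have hχj : χ ^ j ≠ 1 := by
        apply hχ2 j hj0
        have : (K : ℤ) + 6 ≤ p := by exact_mod_cast hq2
        omega
      refine fin (fun x => if x = e then 0 else (χ ^ j) (x / c) * ψ k (Mw e v x)) ?_ ?_ ?_
      · intro x
        show ‖if x = e then (0 : ℂ) else (χ ^ j) (x / c) * ψ k (Mw e v x)‖ ≤ 1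
        split_ifs
        · simp
        · rw [norm_mul]
          exact mul_le_one₀ (nrm _ _) (norm_nonneg _) (hψn _)
      · intro x hx
        obtain ⟨x0, xv, xe⟩ := (hXm x).1 hx
        rw [if_neg xe]
      · have h0 : ∑ x : ZMod p, (if x = e then (0 : ℂ) else (χ ^ j) (x / c) * ψ k (Mw e v x)) =
            (χ ^ j) (e / c) * ψ k e *
              ∑ w, (χ ^ j)⁻¹ w * ((χ ^ j) (w - (-e⁻¹)) * ψ' w) := by
          rw [← E.sum_comp, Finset.mul_sum]
          refine Finset.sum_congr rfl fun w _ => ?_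
          rw [hE]
          by_cases hw : w = 0
          · rw [hw, inv_zero, add_zero, if_pos rfl, MulChar.map_zero, zero_mul, mul_zero]
          · have hne : e + w⁻¹ ≠ e := by
              intro h
              have : w⁻¹ = 0 := by
                have h' : e + w⁻¹ = e + 0 := by rw [add_zero]; exact h
                exact add_left_cancel h'
              exact hw (inv_eq_zero.1 this)
            rw [if_neg hne, hMw _ hne, add_sub_cancel_left, inv_inv, AddChar.map_add_eq_mul,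
              hψ', MulChar.inv_apply']
            have h2 : (e + w⁻¹) / c = e / c * (w⁻¹ * (w - -e⁻¹)) := by
              field_simp
              ring
            rw [h2, map_mul, map_mul]
            ring
        show ‖∑ x : ZMod p, (if x = e then (0 : ℂ) else (χ ^ j) (x / c) * ψ k (Mw e v x))‖ ^ 2 ≤ _
        rw [h0]
        have h3 := hM (ZMod p) (χ ^ j)⁻¹ (χ ^ j) ψ' (-e⁻¹) hχj hψ'1
          (neg_ne_zero.mpr (inv_ne_zero he))
        rw [hcard] at h3
        have h4 : ‖(χ ^ j) (e / c) * ψ k e‖ ≤ 1 := by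
          rw [norm_mul]
          exact mul_le_one₀ (nrm _ _) (norm_nonneg _) (hψn _)
        have h5 : ‖(χ ^ j) (e / c) * ψ k e *
              ∑ w, (χ ^ j)⁻¹ w * ((χ ^ j) (w - (-e⁻¹)) * ψ' w)‖ ≤
            ‖∑ w, (χ ^ j)⁻¹ w * ((χ ^ j) (w - (-e⁻¹)) * ψ' w)‖ := by
          rw [norm_mul]
          exact mul_le_of_le_one_left (norm_nonneg _) h4
        have h6 := pow_le_pow_left₀ (norm_nonneg _) h5 2
        refine h6.trans (h3.trans ?_)
        have : 0 ≤ (p : ℝ) * √p := by positivity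
        nlinarith

end Pool.Agent.Helper46.CO
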